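import Pool.Agent.Run7.h242.SC.Iface

set_option autoImplicit false

namespace Run7.h242.SC

open MeasureTheory Set Filter Topology Metric
open scoped ContDiff ENNReal NNReal

lemma V_pos (j : ℕ) : 0 < V j := by unfold V; positivity

lemma V_le (j : ℕ) : V j ≤ 1 / 32 := by
  unfold V
  have : ((1 : ℝ) / 2) ^ j ≤ 1 := pow_le_one₀ (by norm_num) (by norm_num)
  linarith

lemma V_anti {i j : ℕ} (h : i ≤ j) : V j ≤ V i := by
  unfold V
  have : ((1 : ℝ) / 2) ^ j ≤ (1 / 2) ^ i := pow_le_pow_of_le_one (by norm_num) (by norm_num) h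
  linarith

lemma le_sg (k i : ℕ) : i ≤ sg k i := by
  unfold sg
  split_ifs <;> omega

lemma Q_zero_re : (Q 0).re = -1 := by simp [Q]
lemma Q_pos_re {j : ℕ} (hj : j ≠ 0) : (Q j).re = (1 / 2) ^ j := by
  simp only [Q, hj, if_false, q, Complex.ofReal_re]

lemma Q_sep_aux {i l : ℕ} (hi : i ≠ 0) (h : i < l) :
    V l + V i ≤ (Q i).re - (Q l).re := by
  have hl : l ≠ 0 := by omega
  rw [Q_pos_re hi, Q_pos_re hl]
  unfold V
  have h1 : ((1 : ℝ) / 2) ^ l ≤ (1 / 2) ^ (i + 1) :=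
    pow_le_pow_of_le_one (by norm_num) (by norm_num) h
  have h2 : ((1 : ℝ) / 2) ^ (i + 1) = (1 / 2) ^ i / 2 := by rw [pow_succ]; ring
  have h3 : (0 : ℝ) < (1 / 2) ^ i := by positivity
  linarith

lemma Q_sep {i l : ℕ} (h : i ≠ l) :
    V l + V i ≤ (Q i).re - (Q l).re ∨ V l + V i ≤ (Q l).re - (Q i).re := by
  rcases Nat.eq_zero_or_pos i with rfl | hi
  · right
    have hl : l ≠ 0 := fun e => h e.symm
    rw [Q_zero_re, Q_pos_re hl]
    have := V_le l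
    have := V_le 0
    have : (0 : ℝ) < (1 / 2) ^ l := by positivity
    linarith
  · rcases Nat.eq_zero_or_pos l with rfl | hl
    · left
      rw [Q_zero_re, Q_pos_re (by omega)]
      have := V_le i
      have := V_le 0
      have : (0 : ℝ) < (1 / 2) ^ i := by positivity
      linarith
    · rcases lt_or_gt_of_ne h with h' | h'
      · left; exact Q_sep_aux (by omega) h'
      · right
        have := Q_sep_aux (by omega) h'
        linarith

lemma tube_of {p : ℂ × ℝ} (hp : p ∈ Om3) (h0 : 0 ≤ p.2) : ∃ i, ∃ c ∈ T3, Sig i c = p := by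
  rcases hp with hp | hp
  · exact absurd hp.2.2 (not_lt.2 h0)
  · obtain ⟨i, hi⟩ := mem_iUnion.1 hp
    obtain ⟨c, hc, e⟩ := hi
    exact ⟨i, c, hc, e⟩

lemma Sig_re {i : ℕ} {c : ℂ × ℝ} : (Sig i c).1.re = (Q i).re + V i * c.1.re := by
  simp [Sig]

lemma Sig_snd {i : ℕ} {c : ℂ × ℝ} : (Sig i c).2 = c.2 := rfl

lemma re_mem {i : ℕ} {c : ℂ × ℝ} (hc : c ∈ T3) :
    (Q i).re - V i < (Sig i c).1.re ∧ (Sig i c).1.re < (Q i).re + V i := by
  rw [Sig_re]
  have h1 := abs_lt.1 hc.1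
  have h2 := V_pos i
  constructor <;> nlinarith

/-- between two different tubes there is a wall. -/
lemma wall {i j : ℕ} (hij : i ≠ j) {a b : ℝ} (ha : (Q i).re - V i < a ∧ a < (Q i).re + V i)
    (hb : (Q j).re - V j < b ∧ b < (Q j).re + V j) :
    ∃ t : ℝ, 0 < t ∧ t < 1 ∧ ∀ l, ¬ ((Q l).re - V l < a + t * (b - a) ∧
      a + t * (b - a) < (Q l).re + V l) := by
  have hVi := V_pos i
  have hVj := V_pos j
  rcases Q_sep hij with h | h
  · -- tube j on the left of tube i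
    have hba : b - a < 0 := by linarith [hb.2, ha.1]
    refine ⟨((Q i).re - V i - a) / (b - a), ?_, ?_, ?_⟩
    · exact div_pos_of_neg_of_neg (by linarith [ha.1]) hba
    · rw [div_lt_one_of_neg hba]
      linarith [hb.2]
    · intro l hl
      rw [div_mul_cancel₀ _ hba.ne] at hl
      have hVl := V_pos l
      rcases eq_or_ne i l with rfl | hil
      · linarith [hl.1]
      · rcases Q_sep hil with h' | h'
        · linarith [hl.1, hl.2]
        · linarith [hl.1, hl.2]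
  · have hba : 0 < b - a := by linarith [hb.1, ha.2]
    refine ⟨((Q i).re + V i - a) / (b - a), ?_, ?_, ?_⟩
    · exact div_pos (by linarith [ha.2]) hba
    · rw [div_lt_one hba]
      linarith [hb.1]
    · intro l hl
      rw [div_mul_cancel₀ _ hba.ne'] at hl
      have hVl := V_pos l
      rcases eq_or_ne i l with rfl | hil
      · linarith [hl.2]
      · rcases Q_sep hil with h' | h'
        · linarith [hl.1, hl.2]
        · linarith [hl.1, hl.2]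

lemma same_tube {s : Set (ℂ × ℝ)} (hs : Convex ℝ s) (hsO : s ⊆ Om3) {i j : ℕ} {c d : ℂ × ℝ}
    (hc : c ∈ T3) (hd : d ∈ T3) (h1 : Sig i c ∈ s) (h2 : Sig j d ∈ s) (hc0 : 0 ≤ c.2)
    (hd0 : 0 < d.2) : i = j := by
  by_contra hij
  obtain ⟨t, ht0, ht1, hl⟩ := wall hij (re_mem (i := i) hc) (re_mem (i := j) hd)
  have hm : Sig i c + t • (Sig j d - Sig i c) ∈ s :=
    hs.add_smul_sub_mem h1 h2 ⟨ht0.le, ht1.le⟩
  have hm2 : 0 < (Sig i c + t • (Sig j d - Sig i c)).2 := by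
    simp only [Prod.snd_add, Prod.smul_snd, Prod.snd_sub, Sig_snd, smul_eq_mul]
    nlinarith
  obtain ⟨l, e, he, hel⟩ := tube_of (hsO hm) hm2.le
  have := re_mem (i := l) he
  rw [hel] at this
  apply hl l
  have e2 : (Sig i c + t • (Sig j d - Sig i c)).1.re =
      (Sig i c).1.re + t * ((Sig j d).1.re - (Sig i c).1.re) := by
    simp
  rw [e2] at this
  exact this

lemma norm_ep (i : ℕ) : ‖ep i‖ = 1 := by
  unfold ep; split_ifs <;> simp

lemma ep_re (i : ℕ) (z : ℂ) : |(ep i * z).re| = |z.re| := by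
  unfold ep; split_ifs <;> simp

lemma ep_im (i : ℕ) (z : ℂ) : |(ep i * z).im| = |z.im| := by
  unfold ep; split_ifs <;> simp

lemma tubeLip {CG : ℝ} (hG : ∀ v : ℝ, 0 < v → v ≤ 1 / 32 → ∀ (c0 : ℂ) (p p' : ℂ × ℝ),
    |p.1.re| ≤ 1 → |p.1.im| ≤ 1 → |p'.1.re| ≤ 1 → |p'.1.im| ≤ 1 →
    -1 ≤ p.2 → p.2 ≤ 1 → -1 ≤ p'.2 → p'.2 ≤ 1 →
    ‖Gam v c0 p - Gam v c0 p'‖ ≤ CG * (v * ‖p.1 - p'.1‖ + |p.2 - p'.2|))
    {k : ℕ} {ψ : ℂ → ℂ} {g : ℂ × ℝ → ℂ × ℝ} (hg : Glue k ψ g) {i : ℕ} {c d : ℂ × ℝ}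
    (hc : c ∈ T3) (hd : d ∈ T3) (hc0 : 0 ≤ c.2) (hd0 : 0 ≤ d.2) :
    ‖g (Sig i c) - g (Sig i d)‖ ≤ 2 * |CG| * ‖Sig i c - Sig i d‖ := by
  rw [hg.2 i c hc hc0, hg.2 i d hd hd0]
  have hV := V_pos i
  have h := hG (V (sg k i)) (V_pos _) (V_le _) (q (sg k i)) (ep i * c.1, c.2) (ep i * d.1, d.2)
    ((ep_re i c.1).trans_le hc.1.le) ((ep_im i c.1).trans_le hc.2.1.le)
    ((ep_re i d.1).trans_le hd.1.le) ((ep_im i d.1).trans_le hd.2.1.le)
    hc.2.2.1.le hc.2.2.2.1.le hd.2.2.1.le hd.2.2.2.1.le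
  refine h.trans ?_
  have e1 : ‖ep i * c.1 - ep i * d.1‖ = ‖c.1 - d.1‖ := by
    rw [← mul_sub, norm_mul, norm_ep, one_mul]
  have e2 : V i * ‖c.1 - d.1‖ = ‖(Sig i c - Sig i d).1‖ := by
    have : (Sig i c - Sig i d).1 = (V i : ℂ) * (c.1 - d.1) := by
      simp [Sig]; ring
    rw [this, norm_mul, Complex.norm_real, Real.norm_of_nonneg hV.le]
  have e3 : |c.2 - d.2| = ‖(Sig i c - Sig i d).2‖ := by
    simp [Sig]
  have e4 : V (sg k i) * ‖c.1 - d.1‖ ≤ V i * ‖c.1 - d.1‖ :=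
    mul_le_mul_of_nonneg_right (V_anti (le_sg k i)) (norm_nonneg _)
  have e5 : ‖(Sig i c - Sig i d).1‖ ≤ ‖Sig i c - Sig i d‖ := norm_fst_le _
  have e6 : ‖(Sig i c - Sig i d).2‖ ≤ ‖Sig i c - Sig i d‖ := norm_snd_le _
  simp only [e1]
  have e7 : 0 ≤ V (sg k i) * ‖c.1 - d.1‖ + |c.2 - d.2| :=
    add_nonneg (mul_nonneg (V_pos _).le (norm_nonneg _)) (abs_nonneg _)
  have e8 : V (sg k i) * ‖c.1 - d.1‖ + |c.2 - d.2| ≤ 2 * ‖Sig i c - Sig i d‖ := by
    rw [e3]; linarith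
  calc CG * (V (sg k i) * ‖c.1 - d.1‖ + |c.2 - d.2|)
      ≤ |CG| * (V (sg k i) * ‖c.1 - d.1‖ + |c.2 - d.2|) :=
        mul_le_mul_of_nonneg_right (le_abs_self _) e7
    _ ≤ |CG| * (2 * ‖Sig i c - Sig i d‖) := mul_le_mul_of_nonneg_left e8 (abs_nonneg _)
    _ = _ := by ring

theorem t_FKL (hGAML : S_GAML) (hCONE : S_CONE) : S_FKL := by
  intro C
  obtain ⟨CG, hG⟩ := hGAML
  obtain ⟨CC, hcone⟩ := hCONE C
  refine ⟨CC + Real.toNNReal (2 * |CG|), ?_⟩
  intro k ψ g hk hψ hg s hs hsO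
  have hcn := (hcone ψ hψ.1 hψ.2.1 hψ.2.2.1).1
  have hD : ((CC + Real.toNNReal (2 * |CG|) : ℝ≥0) : ℝ) = CC + 2 * |CG| := by
    rw [NNReal.coe_add, Real.coe_toNNReal _ (by positivity)]
  have hCC : (0 : ℝ) ≤ CC := CC.2
  have hCG : 0 ≤ 2 * |CG| := by positivity
  have hlow : ∀ p ∈ s, -1 < p.2 := by
    intro p hp
    rcases hsO hp with h | h
    · exact h.2.1
    · obtain ⟨i, hi⟩ := mem_iUnion.1 h
      obtain ⟨c, hc, e⟩ := hi
      rw [← e, Sig_snd]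
      exact hc.2.2.1
  -- both below
  have hA : ∀ p ∈ s, ∀ p' ∈ s, p.2 ≤ 0 → p'.2 ≤ 0 → ‖g p - g p'‖ ≤ CC * ‖p - p'‖ := by
    intro p hp p' hp' h1 h2
    rw [hg.1 p (hlow p hp) h1, hg.1 p' (hlow p' hp') h2]
    have := hcn.dist_le_mul p ⟨hlow p hp, h1⟩ p' ⟨hlow p' hp', h2⟩
    simpa [dist_eq_norm] using this
  -- both above
  have hB : ∀ p ∈ s, ∀ p' ∈ s, 0 ≤ p.2 → 0 < p'.2 →
      ‖g p - g p'‖ ≤ 2 * |CG| * ‖p - p'‖ := by
    intro p hp p' hp' h1 h2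
    obtain ⟨i, c, hc, rfl⟩ := tube_of (hsO hp) h1
    obtain ⟨j, d, hd, rfl⟩ := tube_of (hsO hp') h2.le
    have : i = j := same_tube hs hsO hc hd hp hp' h1 h2
    subst this
    exact tubeLip hG hg hc hd h1 h2.le
  -- crossing
  have hX : ∀ p ∈ s, ∀ p' ∈ s, p.2 ≤ 0 → 0 < p'.2 →
      ‖g p - g p'‖ ≤ (CC + 2 * |CG|) * ‖p - p'‖ := by
    intro p hp p' hp' h1 h2
    have hd : 0 < p'.2 - p.2 := by linarith
    set t : ℝ := -p.2 / (p'.2 - p.2) with ht
    have ht0 : 0 ≤ t := div_nonneg (by linarith) hd.le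
    have ht1 : t ≤ 1 := by rw [ht, div_le_one hd]; linarith
    have hr : p + t • (p' - p) ∈ s := hs.add_smul_sub_mem hp hp' ⟨ht0, ht1⟩
    have hr2 : (p + t • (p' - p)).2 = 0 := by
      simp only [Prod.snd_add, Prod.smul_snd, Prod.snd_sub, smul_eq_mul]
      rw [ht, div_mul_cancel₀ _ hd.ne']
      ring
    have k1 := hA p hp _ hr h1 hr2.le
    have k2 := hB _ hr p' hp' hr2.ge h2
    have k3 : ‖p - (p + t • (p' - p))‖ ≤ ‖p - p'‖ := by
      have : p - (p + t • (p' - p)) = t • (p - p') := by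
        rw [smul_sub, smul_sub]; abel
      rw [this, norm_smul, Real.norm_of_nonneg ht0]
      exact mul_le_of_le_one_left (norm_nonneg _) ht1
    have k4 : ‖(p + t • (p' - p)) - p'‖ ≤ ‖p - p'‖ := by
      have : (p + t • (p' - p)) - p' = (1 - t) • (p - p') := by
        rw [sub_smul, one_smul, smul_sub, smul_sub]; abel
      rw [this, norm_smul, Real.norm_of_nonneg (by linarith)]
      exact mul_le_of_le_one_left (norm_nonneg _) (by linarith)
    have k5 : ‖g p - g p'‖ ≤ ‖g p - g (p + t • (p' - p))‖ + ‖g (p + t • (p' - p)) - g p'‖ :=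
      norm_sub_le_norm_sub_add_norm_sub _ _ _
    have k6 := mul_le_mul_of_nonneg_left k3 hCC
    have k7 := mul_le_mul_of_nonneg_left k4 hCG
    rw [add_mul]
    linarith
  refine LipschitzOnWith.of_dist_le_mul fun p hp p' hp' => ?_
  rw [dist_eq_norm, dist_eq_norm, hD]
  have hn := norm_nonneg (p - p')
  rcases le_or_gt p.2 0 with h1 | h1
  · rcases le_or_gt p'.2 0 with h2 | h2
    · have := hA p hp p' hp' h1 h2
      nlinarith [mul_nonneg hCG hn]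
    · exact hX p hp p' hp' h1 h2
  · rcases le_or_gt p'.2 0 with h2 | h2
    · have := hX p' hp' p hp h2 h1
      rwa [norm_sub_rev (g p') (g p), norm_sub_rev p' p] at this
    · have := hB p hp p' hp' h1.le h2
      nlinarith [mul_nonneg hCC hn]

end Run7.h242.SC
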