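import Pool.Agent.Run7.h242.SC.Defs

/-!
# Basic lemmas for project SC: the projection `pr` and the replacement `wi`.
-/

set_option autoImplicit false

namespace Run7.h242.SC

open MeasureTheory Set Filter Topology Metric
open scoped ContDiff ENNReal NNReal

@[simp] lemma pr_re {m : ℕ} (x : E (m + 3)) : (pr x).1.re = x 0 := rfl
@[simp] lemma pr_im {m : ℕ} (x : E (m + 3)) : (pr x).1.im = x 1 := rfl
@[simp] lemma pr_snd {m : ℕ} (x : E (m + 3)) : (pr x).2 = x 2 := rfl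

lemma ne10 {m : ℕ} : (1 : Fin (m + 3)) ≠ 0 := by
  intro h
  have := congrArg Fin.val h
  simp at this

lemma val_two {m : ℕ} : ((2 : Fin (m + 3)) : ℕ) = 2 := Fin.val_two

lemma ne20 {m : ℕ} : (2 : Fin (m + 3)) ≠ 0 := by
  intro h
  have := congrArg Fin.val h
  rw [val_two] at this
  simp at this

lemma ne21 {m : ℕ} : (2 : Fin (m + 3)) ≠ 1 := by
  intro h
  have := congrArg Fin.val h
  rw [val_two] at this
  simp at this

lemma ne_of_three_le {m : ℕ} {i : Fin (m + 3)} (hi : 3 ≤ (i : ℕ)) :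
    i ≠ 0 ∧ i ≠ 1 ∧ i ≠ 2 := by
  refine ⟨?_, ?_, ?_⟩
  · rintro rfl; simp at hi
  · rintro rfl; simp at hi
  · rintro rfl; rw [val_two] at hi; omega

lemma fin_cases3 {m : ℕ} (i : Fin (m + 3)) : i = 0 ∨ i = 1 ∨ i = 2 ∨ 3 ≤ (i : ℕ) := by
  by_cases h3 : 3 ≤ (i : ℕ)
  · exact Or.inr (Or.inr (Or.inr h3))
  · have : (i : ℕ) = 0 ∨ (i : ℕ) = 1 ∨ (i : ℕ) = 2 := by omega
    rcases this with h | h | h
    · left; exact Fin.ext (by simpa using h)
    · right; left; exact Fin.ext (by simpa using h)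
    · right; right; left; exact Fin.ext (by rw [val_two]; exact h)

@[simp] lemma wi_zero {m : ℕ} (x : E (m + 3)) (w : ℂ × ℝ) : wi x w 0 = w.1.re := by
  simp [wi]

@[simp] lemma wi_one {m : ℕ} (x : E (m + 3)) (w : ℂ × ℝ) : wi x w 1 = w.1.im := by
  simp [wi]

@[simp] lemma wi_two {m : ℕ} (x : E (m + 3)) (w : ℂ × ℝ) : wi x w 2 = w.2 := by
  simp [wi, ne20, ne21]

lemma wi_ge {m : ℕ} (x : E (m + 3)) (w : ℂ × ℝ) {i : Fin (m + 3)} (hi : 3 ≤ (i : ℕ)) :
    wi x w i = x i := by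
  obtain ⟨h0, h1, h2⟩ := ne_of_three_le hi
  simp [wi, h0, h1, h2]

@[simp] lemma pr_wi {m : ℕ} (x : E (m + 3)) (w : ℂ × ℝ) : pr (wi x w) = w := by
  refine Prod.ext ?_ ?_
  · exact Complex.ext (by simp [pr]) (by simp [pr])
  · simp [pr]

lemma pas_wi {m : ℕ} {x : E (m + 3)} (hx : Pas x) (w : ℂ × ℝ) : Pas (wi x w) := by
  intro i hi
  rw [wi_ge x w hi]
  exact hx i hi

lemma wi_pr {m : ℕ} (x y : E (m + 3)) (h : ∀ i : Fin (m + 3), 3 ≤ (i : ℕ) → x i = y i) :
    wi x (pr y) = y := by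
  ext i
  rcases fin_cases3 i with rfl | rfl | rfl | hi
  · simp
  · simp
  · simp
  · rw [wi_ge x _ hi, h i hi]

lemma continuous_pr {m : ℕ} : Continuous (pr : E (m + 3) → ℂ × ℝ) := by
  have h0 : Continuous (fun x : E (m + 3) => x 0) := by fun_prop
  have h1 : Continuous (fun x : E (m + 3) => x 1) := by fun_prop
  have h2 : Continuous (fun x : E (m + 3) => x 2) := by fun_prop
  have : (pr : E (m + 3) → ℂ × ℝ) = fun x => (((x 0 : ℝ) : ℂ) + ((x 1 : ℝ) : ℂ) * Complex.I, x 2) := by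
    funext x
    refine Prod.ext ?_ rfl
    exact Complex.ext (by simp) (by simp)
  rw [this]
  fun_prop

lemma continuous_wi {m : ℕ} :
    Continuous (fun a : E (m + 3) × (ℂ × ℝ) => wi a.1 a.2) := by
  unfold wi
  refine (PiLp.continuous_toLp 2 _).comp (continuous_pi fun i => ?_)
  by_cases h0 : i = 0
  · simp only [h0, if_true]
    exact Complex.continuous_re.comp (continuous_fst.comp continuous_snd)
  · by_cases h1 : i = 1
    · simp only [h1, if_true, ne10, if_false]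
      exact Complex.continuous_im.comp (continuous_fst.comp continuous_snd)
    · by_cases h2 : i = 2
      · simp only [h2, if_true, ne20, ne21, if_false]
        exact continuous_snd.comp continuous_snd
      · simp only [h0, h1, h2, if_false]
        fun_prop

lemma abs_coord_le {n : ℕ} (x : E n) (i : Fin n) : |x i| ≤ ‖x‖ := by
  have := PiLp.norm_apply_le x i
  simpa using this

lemma norm_pr_sub_le {m : ℕ} (x y : E (m + 3)) : ‖pr x - pr y‖ ≤ ‖x - y‖ := by
  rw [Prod.norm_def]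
  refine max_le ?_ ?_
  · have h : ‖(pr x - pr y).1‖ ^ 2 ≤ ‖x - y‖ ^ 2 := by
      have e1 : ‖(pr x - pr y).1‖ ^ 2 = (x 0 - y 0) ^ 2 + (x 1 - y 1) ^ 2 := by
        rw [← Complex.normSq_eq_norm_sq, Complex.normSq_apply]
        simp
        ring
      rw [e1, EuclideanSpace.norm_sq_eq]
      have : ∑ i ∈ ({0, 1} : Finset (Fin (m + 3))), ‖(x - y) i‖ ^ 2 ≤ ∑ i, ‖(x - y) i‖ ^ 2 :=
        Finset.sum_le_sum_of_subset_of_nonneg (Finset.subset_univ _)
          (fun i _ _ => by positivity)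
      rw [Finset.sum_pair (Ne.symm ne10)] at this
      simpa [sq_abs] using this
    exact (pow_le_pow_iff_left₀ (norm_nonneg _) (norm_nonneg _) two_ne_zero).1 h
  · have := abs_coord_le (x - y) 2
    simpa using this

/-- Crude bound: only the first three coordinates matter when the passive ones agree. -/
lemma norm_wi_sub_le {m : ℕ} (x y : E (m + 3)) (w w' : ℂ × ℝ) :
    ‖wi x w - wi y w'‖ ≤ 2 * ‖w - w'‖ + ‖x - y‖ := by
  have h1 : ‖wi x w - wi y w'‖ ^ 2 ≤ (2 * ‖w - w'‖ + ‖x - y‖) ^ 2 := by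
    have e : ‖wi x w - wi y w'‖ ^ 2 ≤ (w.1.re - w'.1.re) ^ 2 + (w.1.im - w'.1.im) ^ 2 +
        (w.2 - w'.2) ^ 2 + ‖x - y‖ ^ 2 := by
      rw [EuclideanSpace.norm_sq_eq, EuclideanSpace.norm_sq_eq]
      have hle : ∀ i : Fin (m + 3), ‖(wi x w - wi y w') i‖ ^ 2 ≤
          (if i = 0 then (w.1.re - w'.1.re) ^ 2 else 0) +
          (if i = 1 then (w.1.im - w'.1.im) ^ 2 else 0) +
          (if i = 2 then (w.2 - w'.2) ^ 2 else 0) + ‖(x - y) i‖ ^ 2 := by
        intro i
        rcases fin_cases3 i with rfl | rfl | rfl | hi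
        · simp [ne10.symm, ne20.symm, sq_abs]
          positivity
        · simp [ne21.symm, sq_abs]
          positivity
        · simp [ne20, ne21, sq_abs]
          positivity
        · obtain ⟨h0, h1, h2⟩ := ne_of_three_le hi
          simp [h0, h1, h2, wi_ge _ _ hi]
      refine (Finset.sum_le_sum (fun i _ => hle i)).trans (le_of_eq ?_)
      rw [Finset.sum_add_distrib, Finset.sum_add_distrib, Finset.sum_add_distrib]
      simp
    have e1 : (w.1.re - w'.1.re) ^ 2 + (w.1.im - w'.1.im) ^ 2 = ‖(w - w').1‖ ^ 2 := by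
      rw [← Complex.normSq_eq_norm_sq, Complex.normSq_apply]
      simp
      ring
    have e2 : ‖(w - w').1‖ ≤ ‖w - w'‖ := norm_fst_le _
    have e3 : ‖(w - w').2‖ ≤ ‖w - w'‖ := norm_snd_le _
    have e4 : (w.2 - w'.2) ^ 2 = ‖(w - w').2‖ ^ 2 := by simp [sq_abs]
    have n1 := norm_nonneg (w - w').1
    have n2 := norm_nonneg (w - w').2
    have n3 := norm_nonneg (w - w')
    have n4 := norm_nonneg (x - y)
    nlinarith [mul_nonneg n3 n4]
  exact (pow_le_pow_iff_left₀ (norm_nonneg _) (by positivity) two_ne_zero).1 h1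

lemma mem_Om_iff {m : ℕ} (x : E (m + 3)) : x ∈ Om m ↔ Pas x ∧ pr x ∈ Om3 := Iff.rfl
lemma mem_Om'_iff {m : ℕ} (x : E (m + 3)) : x ∈ Om' m ↔ Pas x ∧ pr x ∈ Om3' := Iff.rfl

end Run7.h242.SC
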