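import Mathlib

/-!
# Weak and strong closures of Sobolev homeomorphisms in dimension at least three

Page MP_a6162f_an.  Definitions for the connected counterexample valid for all `n ≥ 3`
and all `1 ≤ p < ∞`.

Points of Euclidean space of dimension `m+3` are split into the part `pr x` in `ℂ × ℝ`
(coordinates 0,1 as a complex number `z`, coordinate 2 as a depth `y`) and the passive
coordinates (index at least 3), which always run through `(0,1)`.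

* room `M3` : `|z| < 3`, `-1 < y < 0`;
* standard tube `T3` : `(ζ,y)` with `ζ` in the open square, `-1 < y < 1`, minus the closed bar
  `|re ζ| ≤ 1/2, 1/2 ≤ y ≤ 3/4` (full width in the `im` direction);
* source: the room with straight tubes `Sig j '' T3` (`j ≥ 0`), half width `V j = 2^(-j)/32`,
  centred at `-1` for `j = 0` and at `2^(-j)` for `j ≥ 1`;
* target: the room with coiled tubes `Gam (V j) (q j) '' T3` (`j ≥ 1`), of tiny diameter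
  (at most `10 * V j`) but intrinsic length about one.
-/

set_option autoImplicit false

namespace Run7.h242.SC

open MeasureTheory Set Filter Topology Metric
open scoped ContDiff ENNReal NNReal

noncomputable section

/-- Euclidean space. -/
abbrev E (n : ℕ) := EuclideanSpace ℝ (Fin n)

/-- The `j`-th unit vector. -/
def ee {n : ℕ} (j : Fin n) : E n := EuclideanSpace.single j (1 : ℝ)

/-- `G` is a weak gradient of `f` on `Ω`: `G x i j` is the weak partial derivative `∂_j f_i`. -/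
def WeakGrad {n : ℕ} (Ω : Set (E n)) (f : E n → E n) (G : E n → Fin n → Fin n → ℝ) : Prop :=
  ∀ i j, ∀ φ : E n → ℝ, ContDiff ℝ ∞ φ → HasCompactSupport φ → tsupport φ ⊆ Ω →
    ∫ x in Ω, f x i * fderiv ℝ φ x (ee j) = - ∫ x in Ω, G x i j * φ x

/-- `f` belongs to `W^{1,p}(Ω; ℝ^n)` with weak gradient `G`. -/
structure InW {n : ℕ} (p : ℝ≥0∞) (Ω : Set (E n)) (f : E n → E n)
    (G : E n → Fin n → Fin n → ℝ) : Prop where
  f_mem : ∀ i, MemLp (fun x => f x i) p (volume.restrict Ω)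
  G_mem : ∀ i j, MemLp (fun x => G x i j) p (volume.restrict Ω)
  weak : WeakGrad Ω f G

/-- `f` restricts to a homeomorphism of `Ω` onto `Ω'`. -/
def IsHomeoOnto {n : ℕ} (Ω Ω' : Set (E n)) (f : E n → E n) : Prop :=
  ∃ e : Ω ≃ₜ Ω', ∀ x : Ω, ((e x : Ω') : E n) = f x

/-- Weak convergence in `W^{1,p}(Ω)`: functions and gradients converge against all
functions of `L^q(Ω)`, `q` the conjugate exponent. -/
def WeakLim {n : ℕ} (p : ℝ≥0∞) (Ω : Set (E n)) (fk : ℕ → E n → E n)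
    (Gk : ℕ → E n → Fin n → Fin n → ℝ) (f : E n → E n) (G : E n → Fin n → Fin n → ℝ) : Prop :=
  ∀ q : ℝ≥0∞, ENNReal.HolderConjugate p q → ∀ ψ : E n → ℝ, MemLp ψ q (volume.restrict Ω) →
    (∀ i, Tendsto (fun k => ∫ x in Ω, fk k x i * ψ x) atTop (𝓝 (∫ x in Ω, f x i * ψ x))) ∧
    (∀ i j, Tendsto (fun k => ∫ x in Ω, Gk k x i j * ψ x) atTop
      (𝓝 (∫ x in Ω, G x i j * ψ x)))

/-- Norm convergence in `W^{1,p}(Ω)`. -/
def StrongLim {n : ℕ} (p : ℝ≥0∞) (Ω : Set (E n)) (fk : ℕ → E n → E n)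
    (Gk : ℕ → E n → Fin n → Fin n → ℝ) (f : E n → E n) (G : E n → Fin n → Fin n → ℝ) : Prop :=
  (∀ i, Tendsto (fun k => eLpNorm (fun x => fk k x i - f x i) p (volume.restrict Ω))
    atTop (𝓝 0)) ∧
  (∀ i j, Tendsto (fun k => eLpNorm (fun x => Gk k x i j - G x i j) p (volume.restrict Ω))
    atTop (𝓝 0))

/-- Weak sequential closure in `W^{1,p}(Ω,Ω')` of the homeomorphisms of `Ω` onto `Ω'`. -/
def weakClosure {n : ℕ} (p : ℝ≥0∞) (Ω Ω' : Set (E n)) : Set (E n → E n) :=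
  {f | ∃ G, InW p Ω f G ∧ (∀ᵐ x ∂(volume.restrict Ω), f x ∈ closure Ω') ∧
    ∃ (fk : ℕ → E n → E n) (Gk : ℕ → E n → Fin n → Fin n → ℝ),
      (∀ k, IsHomeoOnto Ω Ω' (fk k) ∧ InW p Ω (fk k) (Gk k)) ∧ WeakLim p Ω fk Gk f G}

/-- Strong closure in `W^{1,p}(Ω,Ω')` of the homeomorphisms of `Ω` onto `Ω'`. -/
def strongClosure {n : ℕ} (p : ℝ≥0∞) (Ω Ω' : Set (E n)) : Set (E n → E n) :=
  {f | ∃ G, InW p Ω f G ∧ (∀ᵐ x ∂(volume.restrict Ω), f x ∈ closure Ω') ∧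
    ∃ (fk : ℕ → E n → E n) (Gk : ℕ → E n → Fin n → Fin n → ℝ),
      (∀ k, IsHomeoOnto Ω Ω' (fk k) ∧ InW p Ω (fk k) (Gk k)) ∧ StrongLim p Ω fk Gk f G}

/-! ### The geometry -/

/-- The `ℂ × ℝ` part of a point. -/
def pr {m : ℕ} (x : E (m + 3)) : ℂ × ℝ := (⟨x 0, x 1⟩, x 2)

/-- All passive coordinates lie in `(0,1)`. -/
def Pas {m : ℕ} (x : E (m + 3)) : Prop := ∀ i : Fin (m + 3), 3 ≤ (i : ℕ) → 0 < x i ∧ x i < 1

/-- Half widths of the doors. -/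
def V (j : ℕ) : ℝ := (1 / 2) ^ j / 32

/-- Centres of the target doors. -/
def q (j : ℕ) : ℂ := (((1 / 2 : ℝ) ^ j : ℝ) : ℂ)

/-- Centres of the source doors. -/
def Q (j : ℕ) : ℂ := if j = 0 then -1 else q j

/-- The standard tube with a bar removed. -/
def T3 : Set (ℂ × ℝ) :=
  {p | |p.1.re| < 1 ∧ |p.1.im| < 1 ∧ -1 < p.2 ∧ p.2 < 1 ∧
    ¬ (|p.1.re| ≤ 1 / 2 ∧ 1 / 2 ≤ p.2 ∧ p.2 ≤ 3 / 4)}

/-- The room. -/
def M3 : Set (ℂ × ℝ) := {p | ‖p.1‖ < 3 ∧ -1 < p.2 ∧ p.2 < 0}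

/-- Time spent on the helix. -/
def tt (v y : ℝ) : ℝ := max (y - 3 * v) 0

/-- Half width of the tube at level `y` (a funnel from `v` to `v^2`). -/
def cc (v y : ℝ) : ℝ := max (v ^ 2) (min v (v - (1 - v) * y))

/-- The coiled tube: straight for `y ≤ 3v` (with a funnel on `[0,v]`), then a helix around the
axis `re = -v`, depth `3v`. -/
def Gam (v : ℝ) (c0 : ℂ) (p : ℂ × ℝ) : ℂ × ℝ :=
  (c0 + ⟨-v + (v + cc v p.2 * p.1.re) * Real.cos (tt v p.2 / v),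
      cc v p.2 * p.1.im + v * tt v p.2⟩,
    min p.2 (3 * v) + (v + cc v p.2 * p.1.re) * Real.sin (tt v p.2 / v))

/-- Straight source tube. -/
def Sig (j : ℕ) (p : ℂ × ℝ) : ℂ × ℝ := (Q j + (V j : ℂ) * p.1, p.2)

def Om3 : Set (ℂ × ℝ) := M3 ∪ ⋃ j : ℕ, Sig j '' T3

def Om3' : Set (ℂ × ℝ) := M3 ∪ ⋃ j : ℕ, Gam (V (j + 1)) (q (j + 1)) '' T3

/-- The source domain in dimension `m+3`. -/
def Om (m : ℕ) : Set (E (m + 3)) := {x | Pas x ∧ pr x ∈ Om3}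

/-- The target domain in dimension `m+3`. -/
def Om' (m : ℕ) : Set (E (m + 3)) := {x | Pas x ∧ pr x ∈ Om3'}

/-- The part of the source tube number 0 beyond its door. -/
def T0p (m : ℕ) : Set (E (m + 3)) := {x | x ∈ Om m ∧ 0 < x 2 ∧ x 0 < -1 / 2}

/-- `lev` is the level function on the target: the depth on the room, the tube parameter `y`
on the tubes. -/
def LevOK (lev : ℂ × ℝ → ℝ) : Prop :=
  (∀ p : ℂ × ℝ, p ∈ M3 → lev p = p.2) ∧
  (∀ (j : ℕ) (p : ℂ × ℝ), p ∈ T3 → lev (Gam (V (j + 1)) (q (j + 1)) p) = p.2)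

/-- The closed cube around `T3`. -/
def Cube : Set (ℂ × ℝ) := {p | |p.1.re| ≤ 1 ∧ |p.1.im| ≤ 1 ∧ -1 ≤ p.2 ∧ p.2 ≤ 1}

/-- Replace the first three coordinates of `x` by `w`. -/
def wi {m : ℕ} (x : E (m + 3)) (w : ℂ × ℝ) : E (m + 3) :=
  WithLp.toLp 2 (fun i : Fin (m + 3) =>
    if i = 0 then w.1.re else if i = 1 then w.1.im else if i = 2 then w.2 else x i)

/-- Shift of the indices: `0 ↦ k`, `i ↦ i` for `1 ≤ i < k`, `i ↦ i+1` for `i ≥ k`. -/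
def sg (k i : ℕ) : ℕ := if i = 0 then k else if i < k then i else i + 1

/-- Sign: `-1` for tube 0. -/
def ep (i : ℕ) : ℂ := if i = 0 then -1 else 1

/-- The properties of the planar maps `ψ_k` (see `S_PSI`). -/
def Good (C : ℝ≥0) (k : ℕ) (ψ : ℂ → ℂ) : Prop :=
  Function.Bijective ψ ∧ LipschitzWith C ψ ∧
    (∀ z, 2 ≤ ‖z‖ → ψ z = z) ∧
    (∀ j, 1 ≤ j → j < k → ∀ ζ : ℂ, |ζ.re| ≤ 1 → |ζ.im| ≤ 1 →
      ψ (q j + (V j : ℂ) * ζ) = q j + (V j : ℂ) * ζ) ∧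
    (∀ j, k ≤ j → ∀ ζ : ℂ, |ζ.re| ≤ 1 → |ζ.im| ≤ 1 →
      ψ (q j + (V j : ℂ) * ζ) = q (j + 1) + (V (j + 1) : ℂ) * ζ) ∧
    (∀ ζ : ℂ, |ζ.re| ≤ 1 → |ζ.im| ≤ 1 → ψ (-1 + (V 0 : ℂ) * ζ) = q k - (V k : ℂ) * ζ)

/-- Alexander cone over a planar map. -/
def cone (ψ : ℂ → ℂ) (p : ℂ × ℝ) : ℂ × ℝ :=
  (((1 + p.2 : ℝ) : ℂ) * ψ (p.1 / ((1 + p.2 : ℝ) : ℂ)), p.2)

/-- `g` is the cone on the room and the index shift `sg k` on the tubes. -/
def Glue (k : ℕ) (ψ : ℂ → ℂ) (g : ℂ × ℝ → ℂ × ℝ) : Prop :=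
  (∀ p : ℂ × ℝ, -1 < p.2 → p.2 ≤ 0 → g p = cone ψ p) ∧
  (∀ (i : ℕ) (p : ℂ × ℝ), p ∈ T3 → 0 ≤ p.2 →
    g (Sig i p) = Gam (V (sg k i)) (q (sg k i)) (ep i * p.1, p.2))

/-- Clamp to `[0,1]`. -/
def cl (s : ℝ) : ℝ := max 0 (min s 1)

/-- The boundary of the rectangle `[a,b] × [c,d]`, once around, `t ∈ [0,1]`. -/
def rp (a b c d t : ℝ) : ℂ :=
  ⟨a + (b - a) * (cl (4 * t) - cl (4 * t - 2)), c + (d - c) * (cl (4 * t - 1) - cl (4 * t - 3))⟩

/-- The rectangular loop around the bar of tube 0, translated by `τ`. -/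
def loopPt {m : ℕ} (τ : E (m + 3)) (t : ℝ) : E (m + 3) :=
  WithLp.toLp 2 (fun i : Fin (m + 3) =>
    if i = 0 then -1 + (rp (-3 / 128) (3 / 128) (-1 / 4) (1 / 4) t).re + τ 0
    else if i = 2 then 5 / 8 + (rp (-3 / 128) (3 / 128) (-1 / 4) (1 / 4) t).im + τ 2
    else if i = 1 then τ 1 else 1 / 2 + τ i)

end

end Run7.h242.SC
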