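import Pool.Agent.Run7.h242.SC.Basic

/-!
# Interface for MP_a6162f_an (project SC)

Every `S_XXX` below is a closed true statement with its complete proof in the comment.
Final theorem (`S_MAIN`): for all `n ≥ 3` there are bounded CONNECTED open sets
`Ω, Ω'` of `ℝ^n` and a map `f` which for every `1 ≤ p < ∞` is a weak, but not a strong,
`W^{1,p}` limit of homeomorphisms of `Ω` onto `Ω'`.

Conventions: `V j = 2^(-j)/32`, `q j = 2^(-j)`, `K = 2^(-k)`.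
-/

set_option autoImplicit false

namespace Run7.h242.SC

open MeasureTheory Set Filter Topology Metric
open scoped ContDiff ENNReal NNReal

noncomputable section

/-- PSI (about 80 lines; hypotheses `S_PS, S_PC, S_PR`).
`ψ_k = R ∘ C ∘ S`, `K = 2^(-k)`.
`S z = ρ(|z|) z/|z|` with `ρ(r) = r/2` for `r ≤ 5K/4`, `ρ(r) = r` for `r ≥ 7K/4`, linear in
between (slope 9/4): fixes the doors `j < k` (there `|z| ≥ 2K(1-0.045) ≥ 7K/4`) and the door at
`-1`, halves everything near the doors `j ≥ k` (`|z| ≤ 1.045 K ≤ 5K/4`), so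
`q j + V j ζ ↦ q (j+1) + V (j+1) ζ`; no door is left with `|z|` in `(0.53 K, 1.9 K)`.
`C z = z (1 - (1-K) A(z) B(|z|))`, `A z = max 0 (min 1 (-2 re z/|z|))` (and `A 0 = 0`),
`B r = max 0 (min 1 ((2-r)·4/3))` (`=1` for `r ≤ 5/4`, `=0` for `r ≥ 2`): maps every ray from the
origin to itself, with slope of `r ↦ r (1-(1-K) a B(r))` at least `K > 0` because
`B + r B' ≤ 1`; identity where `re z ≥ 0` or `|z| ≥ 2`; near `-1` (`|z+1| ≤ 0.045`) it is
multiplication by `K`.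
`R z = z exp(iπ χ(|z|/K))`, `χ = 1` on `[7/8,9/8]`, `0` outside `[3/4,5/4]`, linear in between:
`-K + K V 0 ζ ↦ K - K V 0 ζ = q k - V k ζ`.
Lipschitz: `|z A(z) - w A(w)| ≤ 5|z-w|`, everything is bounded independently of `k`
(`C = 1000` is plenty).  `|ζ.re|,|ζ.im| ≤ 1` gives `|V j ζ| ≤ 0.0443 · 2^(-j)`. -/
def S_PSI : Prop :=
  ∃ C : ℝ≥0, ∀ k : ℕ, 1 ≤ k → ∃ ψ : ℂ → ℂ, Good C k ψ

/-- PS: first factor of `ψ_k` (radial shift), `K ∈ (0,1/2]`; about 100 lines, formulas in `S_PSI`. -/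
def S_PS : Prop :=
  ∃ C : ℝ≥0, ∀ K : ℝ, 0 < K → K ≤ 1 / 2 → ∃ s : ℂ → ℂ, Function.Bijective s ∧
    LipschitzWith C s ∧ (∀ z, 7 * K / 4 ≤ ‖z‖ → s z = z) ∧ (∀ z, ‖z‖ ≤ 5 * K / 4 → s z = z / 2)

/-- PC: second factor of `ψ_k` (sector contraction), `K ∈ (0,1/2]`; about 130 lines, formulas in
`S_PSI`. -/
def S_PC : Prop :=
  ∃ C : ℝ≥0, ∀ K : ℝ, 0 < K → K ≤ 1 / 2 → ∃ s : ℂ → ℂ, Function.Bijective s ∧
    LipschitzWith C s ∧ (∀ z, 2 ≤ ‖z‖ → s z = z) ∧ (∀ z : ℂ, 0 ≤ z.re → s z = z) ∧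
    (∀ z : ℂ, ‖z + 1‖ ≤ 1 / 5 → s z = K * z)

/-- PR: third factor of `ψ_k` (rotation of an annulus by `π`); about 80 lines, formulas in
`S_PSI` (the inverse is `z exp(-iπ χ(|z|/K))`; `|e^{ia} - e^{ib}| ≤ |a - b|`). -/
def S_PR : Prop :=
  ∃ C : ℝ≥0, ∀ K : ℝ, 0 < K → K ≤ 1 / 2 → ∃ s : ℂ → ℂ, Function.Bijective s ∧
    LipschitzWith C s ∧ (∀ z, 5 * K / 4 ≤ ‖z‖ → s z = z) ∧ (∀ z, ‖z‖ ≤ 3 * K / 4 → s z = z) ∧
    (∀ z, 7 * K / 8 ≤ ‖z‖ → ‖z‖ ≤ 9 * K / 8 → s z = -z)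

/-- GAML (about 120 lines): uniform Lipschitz bound of the coiled tubes.
`cc v` takes values in `[v^2, v]` and is `1`-Lipschitz in `y`; `tt v` is `1`-Lipschitz;
`(v + cc re)/v ≤ 2`; so all three real components are Lipschitz as stated (`C = 100` is
plenty; estimate `cos`, `sin` by `|cos a - cos b| ≤ |a-b|` and `|tt/v - tt'/v| ≤ |y-y'|/v`
against the factor `v + cc re ≤ 2v`). -/
def S_GAML : Prop :=
  ∃ C : ℝ, ∀ v : ℝ, 0 < v → v ≤ 1 / 32 → ∀ (c0 : ℂ) (p p' : ℂ × ℝ),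
    |p.1.re| ≤ 1 → |p.1.im| ≤ 1 → |p'.1.re| ≤ 1 → |p'.1.im| ≤ 1 →
    -1 ≤ p.2 → p.2 ≤ 1 → -1 ≤ p'.2 → p'.2 ≤ 1 →
    ‖Gam v c0 p - Gam v c0 p'‖ ≤ C * (v * ‖p.1 - p'.1‖ + |p.2 - p'.2|)

/-- GAMI (about 120 lines): injectivity of a coiled tube on the closed half tube `y ∈ [0,1]`.
Both `y, y' ≤ 3v`: the second component is `y`, hence `y = y'`, same `cc > 0`, `ζ = ζ'`.
`y ≤ 3v < y'`: second components give `sin θ' ≤ 0`, `θ' = tt/v > 0`, so `θ' ≥ π`, and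
`y = 3v + (v+v² re) sin θ' ≥ v` (here `cc v y' = v²`), so `cc v y = v²`; the imaginary parts
give `v² im ζ = v² im ζ' + v·tt ≥ -v² + π v²`, contradiction with `im ζ ≤ 1`.
Both `> 3v`: `(v + v² re) e^{iθ}` agree, so `re ζ = re ζ'` and `θ - θ' = 2πl`; imaginary parts:
`v²(im ζ - im ζ') = -v²(θ-θ')`, so `2π|l| ≤ 2`, `l = 0`. -/
def S_GAMI : Prop :=
  ∀ v : ℝ, 0 < v → v ≤ 1 / 32 → ∀ c0 : ℂ,
    InjOn (Gam v c0) {p : ℂ × ℝ | |p.1.re| ≤ 1 ∧ |p.1.im| ≤ 1 ∧ 0 ≤ p.2 ∧ p.2 ≤ 1}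

/-- GAMB (about 80 lines): position of a coiled tube.
`|re - c0.re| ≤ 2v + v²` (or `≤ cc ≤ v` when `tt = 0`), `|im - c0.im| ≤ v + v²`,
depth in `[min y (3v) - (v+v²)·[tt>0], 3v + v + v²]`. -/
def S_GAMB : Prop :=
  ∀ v : ℝ, 0 < v → v ≤ 1 / 32 → ∀ (c0 : ℂ) (p : ℂ × ℝ),
    |p.1.re| ≤ 1 → |p.1.im| ≤ 1 → p.2 ≤ 1 →
    (p.2 ≤ 0 → Gam v c0 p = (c0 + (v : ℂ) * p.1, p.2)) ∧
    (p.2 ≤ 3 * v → (Gam v c0 p).2 = p.2) ∧
    (0 ≤ p.2 → ‖(Gam v c0 p).1 - c0‖ ≤ 5 * v ∧ 0 ≤ (Gam v c0 p).2 ∧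
      (Gam v c0 p).2 ≤ 5 * v) ∧
    (0 < p.2 → 0 < (Gam v c0 p).2) ∧
    (3 * v ≤ p.2 → v / 2 ≤ (Gam v c0 p).2)

/-- GAMD (about 150 lines): local lower bound for a coiled tube.
Both `y, y' ≤ 3v`: depths are the levels.  Both `≥ 3v`, `θ = (y-3v)/v`: the imaginary parts give
`|im ζ - im ζ' + θ - θ'| ≤ 1`, so `|θ-θ'| ≤ 3 < π`; the points `(re + v, depth - 3v) = r e^{iθ}`
have `r ≥ v - v²`, so the distance is at least `(v-v²)(2/π)|θ-θ'|` divided by `√2` (the norm of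
`ℂ × ℝ` is the maximum of `|z|` and `|y|`; or use the plane distance directly).
`y ≤ 3v < y'`: the depth of the second point is `≥ 3v - v - v²`, so `y ≥ v` and `cc v y = v²`;
imaginary parts: `0 < θ' ≤ 3`; real parts: `(v + v² re ζ') cos θ' ≥ v - 2v²`, so
`cos θ' ≥ 0.9`, `θ' ≤ π/2`, `v θ' ≤ (π/2) v sin θ' ≤ 1.7 (depth' - 3v)`, and `3v - y = 3v - depth`.
-/
def S_GAMD : Prop :=
  ∀ v : ℝ, 0 < v → v ≤ 1 / 32 → ∀ c0 : ℂ, ∀ p ∈ Cube, ∀ p' ∈ Cube,
    ‖Gam v c0 p - Gam v c0 p'‖ ≤ v ^ 2 → |p.2 - p'.2| ≤ 4 * ‖Gam v c0 p - Gam v c0 p'‖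

/-- GAMC (about 60 lines; hypotheses `S_GAML, S_GAMI, S_GAMB`): continuous inverse of a coiled
tube.  `Gam v c0` is continuous and injective on the compact `Cube` (for `y < 0` by the first
clause of `S_GAMB`, and then the depth is negative, while for `y ≥ 0` it is nonnegative). -/
def S_GAMC : Prop :=
  ∀ v : ℝ, 0 < v → v ≤ 1 / 32 → ∀ c0 : ℂ, ContinuousOn (Gam v c0) Cube ∧
    ∃ h : ℂ × ℝ → ℂ × ℝ, ContinuousOn h (Gam v c0 '' Cube) ∧ ∀ p ∈ Cube, h (Gam v c0 p) = p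

/-- SEP (about 120 lines; hypotheses `S_GAMB`): the target tubes.
(1) tubes with levels `≥ 0` are disjoint: their `ℂ`-parts lie in the discs `B(q j, 5 V j)`, which
are disjoint; (2) every tube is relatively open in `Om3'`: near a point of level `> 0` only
points of positive depth of the same tube (`|q i - q j| - 5 V i - 5 V j ≥ q j / 4`); near a point
of level `≤ 0` the `ℂ`-part stays in the open square and the depth below `3v`, so the point is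
`(q j + v ζ, y)` with `y > -1`: if `y ≤ 0` it is `Gam (ζ,y)`, and if `y > 0` it lies in a tube with
positive level, which is the tube `j` again; (3) points of `Om3'` of depth `< 0` are in the room,
points of depth `≥ 0` lie in a tube with level `≥ 0`, of depth `> 0` with level `> 0`. -/
def S_SEP : Prop :=
  (∀ i j : ℕ, i ≠ j → ∀ p p' : ℂ × ℝ, p ∈ Cube → p' ∈ Cube → 0 ≤ p.2 → 0 ≤ p'.2 →
    Gam (V (i + 1)) (q (i + 1)) p ≠ Gam (V (j + 1)) (q (j + 1)) p') ∧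
  (∀ (j : ℕ) (p : ℂ × ℝ), p ∈ T3 → ∃ r : ℝ, 0 < r ∧ ∀ w ∈ Om3',
    ‖w - Gam (V (j + 1)) (q (j + 1)) p‖ < r → w ∈ Gam (V (j + 1)) (q (j + 1)) '' T3) ∧
  (∀ w ∈ Om3', (w.2 < 0 → w ∈ M3) ∧
    (0 ≤ w.2 → ∃ (j : ℕ) (p : ℂ × ℝ), p ∈ T3 ∧ 0 ≤ p.2 ∧ w = Gam (V (j + 1)) (q (j + 1)) p) ∧
    (0 < w.2 → ∃ (j : ℕ) (p : ℂ × ℝ), p ∈ T3 ∧ 0 < p.2 ∧ w = Gam (V (j + 1)) (q (j + 1)) p))

/-- IOD (about 60 lines): from `Pool.Agent.Helper514.IoD.image_mem_nhds` (invariance of domain,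
already in the starting tree; it works in every finite-dimensional inner product space):
a continuous injection of an open set is open, hence a homeomorphism onto its open image. -/
def S_IOD : Prop :=
  ∀ (n : ℕ) (Ω : Set (E n)) (f : E n → E n), IsOpen Ω → ContinuousOn f Ω → InjOn f Ω →
    IsOpen (f '' Ω) ∧ IsHomeoOnto Ω (f '' Ω) f ∧ ∀ U, U ⊆ Ω → IsOpen U → IsOpen (f '' U)

/-- TOP (about 200 lines): elementary topology of the source, boundedness of the target.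
`T3` is open and connected (union of the four convex pieces `y < 1/2`, `y > 3/4`,
`re > 1/2`, `re < -1/2`); `Sig j` is an affine isomorphism on `ℂ × ℝ`; every tube meets the
convex room (levels `y < 0`); all coordinates are bounded by 4 (S_GAMB for the target);
`Om m` is the preimage of `Om3 × (0,1)^m` under a linear isomorphism, the product of connected
sets (use: the image of `Om3 ×ˢ univ.pi (fun _ => Ioo 0 1)` under a continuous map). -/
def S_TOP : Prop :=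
  ∀ m : ℕ, IsOpen (Om m) ∧ IsConnected (Om m) ∧ Bornology.IsBounded (Om m) ∧
    (S_GAMB → Bornology.IsBounded (Om' m))

/-- FKX (about 60 lines): existence of the glued map.  Define `g p` by the cone for `p.2 ≤ 0` and,
for `p.2 > 0`, by choice: if `p = Sig i p'` for some `i`, `p' ∈ T3` (unique: the squares
`Q i + V i ζ`, `|ζ.re|,|ζ.im| ≤ 1`, are disjoint, `Sig i` is injective).  At `y = 0` the two
formulas agree by the three door identities of `Good` (cone with `1 + y = 1`; first clause of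
`S_GAMB`: `Gam v c0 (ζ,0) = (c0 + v ζ, 0)`). -/
def S_FKX : Prop :=
  S_GAMB → ∀ (C : ℝ≥0) (k : ℕ) (ψ : ℂ → ℂ), 1 ≤ k → Good C k ψ → ∃ g, Glue k ψ g

/-- FKL (about 150 lines; hypotheses `S_GAML, S_CONE`): Lipschitz bound on convex subsets `s` of
`Om3` (hence continuity, since `Om3` is open).  `s ∩ {y > 0}` is convex, hence in one tube (the
tubes have pairwise disjoint open `re`-intervals `(Q i - V i, Q i + V i)`; a segment from one to
the other would leave all of them), on which `g` is `Gam ∘ (affine)`: for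
`p = Sig i (ζ,y)`, `V (sg k i) * ‖ζ - ζ'‖ ≤ V i * ‖ζ - ζ'‖ = ‖p.1 - p'.1‖` (`sg k i ≥ i`),
`S_GAML`; `s ∩ {y ≤ 0}`: `S_CONE`; for a segment crossing `y = 0` add the two parts (the crossing
point is in `s ⊆ Om3`, so it is a door point where both formulas hold). -/
def S_FKL : Prop :=
  ∀ C : ℝ≥0, ∃ C' : ℝ≥0, ∀ (k : ℕ) (ψ : ℂ → ℂ) (g : ℂ × ℝ → ℂ × ℝ), 1 ≤ k → Good C k ψ →
    Glue k ψ g → ∀ s : Set (ℂ × ℝ), Convex ℝ s → s ⊆ Om3 → LipschitzOnWith C' g s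

/-- FKB (about 150 lines; hypotheses `S_GAMI, S_GAMB, S_CONE, S_SEP`): bijectivity.
On the room: `S_CONE`.  On levels `y ≥ 0`: tube `i` goes onto tube `sg k i ≥ 1` (`T3` is
symmetric under `(ζ,y) ↦ (-ζ,y)`), `sg k` is a bijection of `{0,1,..}` onto `{1,2,..}`; injective
by `S_GAMI` and `S_SEP`; images of levels `≥ 0` have depth `≥ 0` and those of the room depth
`< 0`. -/
def S_FKB : Prop :=
  ∀ (C : ℝ≥0) (k : ℕ) (ψ : ℂ → ℂ) (g : ℂ × ℝ → ℂ × ℝ), 1 ≤ k → Good C k ψ → Glue k ψ g →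
    InjOn g Om3 ∧ g '' Om3 = Om3'

/-- FK (about 120 lines; hypotheses `S_PSI, S_FKX, S_FKL, S_FKB, S_GAMB, S_TOP`): put together and
lift: `f x = wi x (g (pr x))`; the image under `pr` of a ball inside `Om m` is a convex subset of
`Om3`; norms by `norm_wi_sub_le`, `norm_pr_sub_le` (Basic).
Smallness on tube 0: `S_GAMB`, `q k + 5 V k ≤ 2·2^(-k)`. -/
def S_FK : Prop :=
  ∀ m : ℕ, ∃ C : ℝ≥0, ∀ k : ℕ, 1 ≤ k → ∃ f : E (m + 3) → E (m + 3),
    ContinuousOn f (Om m) ∧ InjOn f (Om m) ∧ f '' (Om m) = Om' m ∧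
    (∀ x r, ball x r ⊆ Om m → LipschitzOnWith C f (ball x r)) ∧
    (∀ x ∈ T0p m, ‖pr (f x)‖ ≤ 4 * (1 / 2) ^ k ∧
      ∀ i : Fin (m + 3), 3 ≤ (i : ℕ) → f x i = x i)

/-- CONE (about 100 lines): the Alexander cone of a Lipschitz bijection of `ℂ` which is
the identity outside the disc of radius 2.  With `‖ψ w‖ ≤ 2C+2` for `‖w‖ ≤ 2` and `s = 1+y`:
`‖s ψ(z/s) - s' ψ(z/s')‖ ≤ |s-s'| ‖ψ(z/s)‖ + s' C ‖z‖ |1/s - 1/s'| ≤ (4C+2)|s-s'|` if
`‖z‖ ≤ 2s, 2s'`; for `‖z‖ ≥ 2s` the value is `z`, and pass through `s''= ‖z‖/2`.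
For fixed `s` the map `z ↦ s ψ(z/s)` is a bijection of `ℂ` and the identity for `‖z‖ ≥ 2s`, so it
preserves `{‖z‖ < 3}`. -/
def S_CONE : Prop :=
  ∀ C : ℝ≥0, ∃ C' : ℝ≥0, ∀ ψ : ℂ → ℂ, Function.Bijective ψ → LipschitzWith C ψ →
    (∀ z, 2 ≤ ‖z‖ → ψ z = z) →
    LipschitzOnWith C' (cone ψ) {p : ℂ × ℝ | -1 < p.2 ∧ p.2 ≤ 0} ∧ BijOn (cone ψ) M3 M3

/-- LEV (about 120 lines; hypotheses `S_GAMI, S_GAMB, S_GAMD, S_SEP`): existence and local
Lipschitz bound of the level function.  Well defined (choice): a point of depth `< 0` is in the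
room and if it is also `Gam p` then `p.2` is the depth (`S_GAMB`; `p.2 < 0` since otherwise the
depth is `≥ 0`); a point of depth `≥ 0` is in exactly one tube, with level `≥ 0`, `S_GAMI`.
Local bound: near a tube point all points of `Om3'` are in the same tube (`S_SEP` (2)), use
`S_GAMD` (shrink `r` below `v²/2`); near a room point all points are in the room, level = depth. -/
def S_LEV : Prop :=
  ∃ lev : ℂ × ℝ → ℝ, LevOK lev ∧
    ∀ x ∈ Om3', ∃ r : ℝ, 0 < r ∧ ∀ y ∈ ball x r ∩ Om3', ∀ z ∈ ball x r ∩ Om3',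
      |lev y - lev z| ≤ 4 * ‖y - z‖

/-- Free homotopy of the closed path `γ` to a constant inside the set `S`. -/
def NullIn (S : Set (ℂ × ℝ)) (γ : ℝ → ℂ × ℝ) : Prop :=
  ∃ H : ℝ × ℝ → ℂ × ℝ, ContinuousOn H (Icc 0 1 ×ˢ Icc 0 1) ∧
    (∀ p ∈ Icc (0 : ℝ) 1 ×ˢ Icc (0 : ℝ) 1, H p ∈ S) ∧
    (∀ t ∈ Icc (0 : ℝ) 1, H (0, t) = γ t) ∧
    (∀ t ∈ Icc (0 : ℝ) 1, H (1, t) = H (1, 0)) ∧
    (∀ s ∈ Icc (0 : ℝ) 1, H (s, 0) = H (s, 1))

/-- NUA (about 150 lines; hypotheses `S_GAMB, S_GAMC, S_SEP`): closed paths of the target with all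
levels `< 1/2` are null-homotopic.  First half of the homotopy: `(z,y) ↦ (z, (1-s) y - s/2)` in
the room, `Gam (ζ,y) ↦ Gam (ζ, (1-s) y - s/2)` in the tubes.  They agree on the common part
`y < 0` (first clause of `S_GAMB`), below level `1/2` there is no bar; the map
`D : [0,1] × (Om3' ∩ {lev < 1/2}) → Om3'` is continuous because the room is open and the tubes
are relatively open (`S_SEP` (2)) with a continuous inverse of `Gam` (`S_GAMC`).  It ends in the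
convex slice `y = -1/2` of the room; second half: contract linearly to the point `t = 0`. -/
def S_NUA : Prop :=
  ∀ lev : ℂ × ℝ → ℝ, LevOK lev → ∀ γ : ℝ → ℂ × ℝ, ContinuousOn γ (Icc 0 1) →
    (∀ t ∈ Icc (0 : ℝ) 1, γ t ∈ Om3' ∧ lev (γ t) < 1 / 2) → γ 0 = γ 1 → NullIn Om3' γ

/-- NUB (about 150 lines; hypotheses `S_GAMB, S_GAMC, S_SEP`): closed paths of the target with all
levels in `(0,3/4)`, or all levels in `(1/2,1)`, are null-homotopic.  Such a path lies in one tube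
(the parts of level `> 0` of the tubes are disjoint and relatively open, `[0,1]` is connected),
so `γ = Gam ∘ δ` with `δ` continuous (`S_GAMC`), closed, in `T3`.  If all levels are `< 3/4`, use
`(ζ,y) ↦ (ζ,(1-s) y + s 3/8)` (a point with `|re ζ| ≤ 1/2` has `y < 1/2` and keeps this);
if all levels are `> 1/2`, use `(ζ,y) ↦ (ζ,(1-s) y + s 7/8)` (a point with `|re ζ| ≤ 1/2` has
`y > 3/4` and keeps this).  Both end in a convex slice of `T3`; then contract linearly. -/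
def S_NUB : Prop :=
  ∀ lev : ℂ × ℝ → ℝ, LevOK lev → ∀ γ : ℝ → ℂ × ℝ, ContinuousOn γ (Icc 0 1) →
    (∀ t ∈ Icc (0 : ℝ) 1, γ t ∈ Om3') → γ 0 = γ 1 →
    ((∀ t ∈ Icc (0 : ℝ) 1, 0 < lev (γ t) ∧ lev (γ t) < 3 / 4) ∨
      (∀ t ∈ Icc (0 : ℝ) 1, 1 / 2 < lev (γ t))) → NullIn Om3' γ

/-- WIND (about 120 lines): the boundary of a rectangle around `0` is not null-homotopic in
`ℂ \ {0}`.  Lift `H` through `exp` on the square (covering / simply connected square; or look for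
a ready lifting lemma in the pool), `H = exp L`; `exp (L(s,1) - L(s,0)) = 1` so
`L(s,1) - L(s,0)` is constant in `s`, and it is `0` for `s = 1` (there `H` is constant in `t`,
so `L(1,·)` is constant); but for `s = 0` it is `± 2πi`: on each of the four sides the loop stays
in an open half plane where a branch of the logarithm is continuous, and the four branches
add up to one full turn. -/
def S_WIND : Prop :=
  ∀ a b c d : ℝ, a < 0 → 0 < b → c < 0 → 0 < d →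
    ¬ ∃ H : ℝ × ℝ → ℂ, ContinuousOn H (Icc 0 1 ×ˢ Icc 0 1) ∧
      (∀ p ∈ Icc (0 : ℝ) 1 ×ˢ Icc (0 : ℝ) 1, H p ≠ 0) ∧
      (∀ t ∈ Icc (0 : ℝ) 1, H (0, t) = rp a b c d t) ∧
      (∀ t ∈ Icc (0 : ℝ) 1, H (1, t) = H (1, 0)) ∧
      (∀ s ∈ Icc (0 : ℝ) 1, H (s, 0) = H (s, 1))

/-- LOOP (about 80 lines): the translated loops run in `T0p m`, are closed, continuous, and the
function `x ↦ (x 0 + 1) + i (x 2 - 5/8)` has no zero on `Om m` (a zero would have positive depth,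
so it would lie in a tube with `re z = -1`, which is tube 0 with `re ζ = 0`, level `5/8`: in the
bar).  Here `τ` is a translation with `|τ i| ≤ 1/512`: in tube 0 one has `x 0 = -1 + re ζ/32`,
so the vertical sides have `|re ζ| ∈ [11/16, 13/16]` and the horizontal ones
`y = 3/8 ± 1/512` or `7/8 ± 1/512`; `im ζ = 32 τ 1`. -/
def S_LOOP : Prop :=
  ∀ m : ℕ, (∀ x ∈ Om m, (⟨x 0 + 1, x 2 - 5 / 8⟩ : ℂ) ≠ 0) ∧
    ∀ τ : E (m + 3), (∀ i, |τ i| ≤ 1 / 512) →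
      (∀ t ∈ Icc (0 : ℝ) 1, loopPt τ t ∈ T0p m) ∧ Continuous (loopPt τ) ∧
      loopPt τ 0 = loopPt τ 1

/-- OSC (about 120 lines; hypotheses `S_NUA, S_NUB, S_WIND, S_LOOP`): for a homeomorphism
`e : Om ≃ₜ Om'` the image of every loop has level oscillation at least `1/4`.  Otherwise all
levels are `< 1/2`, or some level is `≥ 1/2` and all levels are `> 1/4`; in the second case all
levels are `< 3/4` or all are `> 1/2`.  So `pr ∘ f ∘ loop` is null-homotopic in `Om3'` by some `H`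
(`S_NUA`, `S_NUB`), hence `f ∘ loop` is null-homotopic in `Om' m` by
`wi ((1-s) f(loop t) + s f(loop 0)) (H (s,t))`; apply `e.symm`, and
`x ↦ (x 0 + 1) + i (x 2 - 5/8)` (nonzero on `Om`, S_LOOP) turns it into a null-homotopy of the
rectangle with `a = -3/128 + τ 0 < 0 < b = 3/128 + τ 0`, `c = -1/4 + τ 2 < 0 < d = 1/4 + τ 2`,
contradicting `S_WIND`. -/
def S_OSC : Prop :=
  ∀ (m : ℕ) (lev : ℂ × ℝ → ℝ), LevOK lev →
    ∀ (e : Om m ≃ₜ Om' m) (f : E (m + 3) → E (m + 3)), (∀ x : Om m, (e x : E (m + 3)) = f x) →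
    ∀ τ : E (m + 3), (∀ i, |τ i| ≤ 1 / 512) →
      ∃ s ∈ Icc (0 : ℝ) 1, ∃ t ∈ Icc (0 : ℝ) 1,
        1 / 4 ≤ |lev (pr (f (loopPt τ s))) - lev (pr (f (loopPt τ t)))|

/-- TRA (about 120 lines): the translation inequality for weakly differentiable functions.
For all test functions `φ` supported in the set `U = {x | x + t e_j ∈ Ω for t ∈ [0,h]}`
(open): `∫ (g(x + h e_j) - g(x)) φ(x) dx = ∫ φ(x) ∫_0^h G(x + t e_j) dt dx`
(substitute, `φ(y-h e_j) - φ(y) = -∫_0^h ∂_jφ(y - t e_j) dt`, Fubini, weak derivative, Fubini);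
then `IsOpen.ae_eq_zero_of_integral_contDiff_smul_eq_zero`.  Integrate the absolute value over
`A` and use Tonelli. -/
def S_TRA : Prop :=
  ∀ (n : ℕ) (Ω : Set (E n)) (j : Fin n) (g G : E n → ℝ), IsOpen Ω → ContinuousOn g Ω →
    IntegrableOn G Ω →
    (∀ φ : E n → ℝ, ContDiff ℝ ∞ φ → HasCompactSupport φ → tsupport φ ⊆ Ω →
      ∫ x in Ω, g x * fderiv ℝ φ x (ee j) = - ∫ x in Ω, G x * φ x) →
    ∀ h : ℝ, 0 ≤ h → ∀ A : Set (E n), MeasurableSet A →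
      (∀ x ∈ A, ∀ t ∈ Icc (0 : ℝ) h, x + t • ee j ∈ Ω) →
      ∫⁻ x in A, ENNReal.ofReal |g (x + h • ee j) - g x| ≤
        ∫⁻ t in Icc (0 : ℝ) h, ∫⁻ x in A, ENNReal.ofReal |G (x + t • ee j)|

/-- NRA (about 120 lines; hypotheses `S_LOOP`): discretisation of the oscillation.
The loops `loopPt τ t`, `|τ i| ≤ 1/512`, `t ∈ [0,1]`, fill a compact subset `K` of `Om m`; for `N`
large the local comparison holds for consecutive vertices (Lebesgue number of the cover of `K` by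
the balls of the hypothesis), and since `(τ,t) ↦ W (loopPt τ t)` is uniformly continuous on the
compact set, the oscillation over the vertices `t = l/(4N)` is still at least `1/8`. -/
def S_NRA : Prop :=
  ∀ (m : ℕ) (F : E (m + 3) → E (m + 3)) (W : E (m + 3) → ℝ),
    ContinuousOn F (Om m) → ContinuousOn W (Om m) →
    (∀ x ∈ Om m, ∃ r : ℝ, 0 < r ∧ ∀ y ∈ ball x r ∩ Om m, ∀ z ∈ ball x r ∩ Om m,
      |W y - W z| ≤ 4 * ‖F y - F z‖) →
    (∀ τ : E (m + 3), (∀ i, |τ i| ≤ 1 / 512) → ∃ s ∈ Icc (0 : ℝ) 1, ∃ t ∈ Icc (0 : ℝ) 1,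
      1 / 4 ≤ |W (loopPt τ s) - W (loopPt τ t)|) →
    ∃ N : ℕ, 0 < N ∧ ∀ τ : E (m + 3), (∀ i, |τ i| ≤ 1 / 512) →
      1 / 8 ≤ ∑ l ∈ Finset.range (4 * N), 4 * ∑ i : Fin (m + 3),
        |F (loopPt τ (((l : ℝ) + 1) / (4 * N))) i - F (loopPt τ ((l : ℝ) / (4 * N))) i|

/-- NRB (about 180 lines; hypotheses `S_TRA, S_LOOP, S_TOP`): integration over the translations.
The step `l → l+1` with `l = a N + b`, `b < N`, `a ∈ {0,1,2,3}`, is a segment of length `h = side/N`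
in direction `e_0` (`a = 0`), `e_2` (`a = 1`), `-e_0` (`a = 2`), `-e_2` (`a = 3`), where the sides
are `3/64` and `1/2`; vertex: `loopPt τ t = loopPt 0 t + τ`.  Apply `S_TRA` to the component `i`,
`A` = (lower vertex of the segment for `τ = 0`) `+ {τ : |τ i| ≤ 1/512}`, and enlarge the inner
integral to `T0p m`: the step contributes at most `h ∫_{T0p} |G_{i0}|` (or `G_{i2}`); sum over the
`4N` steps: at most `2·(3/64) ∫|G_{i0}| + 2·(1/2) ∫|G_{i2}|` for each `i`. -/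
def S_NRB : Prop :=
  ∀ (m N : ℕ) (F : E (m + 3) → E (m + 3)) (G : E (m + 3) → Fin (m + 3) → Fin (m + 3) → ℝ),
    0 < N → ContinuousOn F (Om m) → WeakGrad (Om m) F G →
    (∀ i j, IntegrableOn (fun x => G x i j) (Om m)) →
    (∫ τ in {τ : E (m + 3) | ∀ i, |τ i| ≤ 1 / 512}, ∑ l ∈ Finset.range (4 * N),
      ∑ i : Fin (m + 3),
        |F (loopPt τ (((l : ℝ) + 1) / (4 * N))) i - F (loopPt τ ((l : ℝ) / (4 * N))) i|) ≤
      2 * ∑ i, ((∫ x in T0p m, |G x i 0|) + ∫ x in T0p m, |G x i 2|)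

/-- NRG (about 60 lines; hypotheses `S_NRA, S_NRB`): the energy lower bound, with
`c = vol {τ : |τ i| ≤ 1/512} / 64` (the box has positive finite volume; the integrand of `S_NRB` is
continuous in `τ` on the compact box, so integrable). -/
def S_NRG : Prop :=
  ∀ m : ℕ, ∃ c : ℝ, 0 < c ∧ ∀ (F : E (m + 3) → E (m + 3))
    (G : E (m + 3) → Fin (m + 3) → Fin (m + 3) → ℝ) (W : E (m + 3) → ℝ),
    ContinuousOn F (Om m) → ContinuousOn W (Om m) →
    (∀ x ∈ Om m, ∃ r : ℝ, 0 < r ∧ ∀ y ∈ ball x r ∩ Om m, ∀ z ∈ ball x r ∩ Om m,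
      |W y - W z| ≤ 4 * ‖F y - F z‖) →
    WeakGrad (Om m) F G → (∀ i j, IntegrableOn (fun x => G x i j) (Om m)) →
    (∀ τ : E (m + 3), (∀ i, |τ i| ≤ 1 / 512) → ∃ s ∈ Icc (0 : ℝ) 1, ∃ t ∈ Icc (0 : ℝ) 1,
      1 / 4 ≤ |W (loopPt τ s) - W (loopPt τ t)|) →
    c ≤ ∑ i, ((∫ x in T0p m, |G x i 0|) + ∫ x in T0p m, |G x i 2|)

/-- WG (about 150 lines): a function which is `C`-Lipschitz on every ball inside the open set has
a weak gradient bounded by `C`.  `G x j = lineDeriv ℝ g x (ee j)` (0 outside the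
differentiability set; Rademacher on balls); the integration by parts formula for test functions
supported in one ball is `LipschitzWith.integral_lineDeriv_mul_eq` after a Lipschitz extension
(`LipschitzOnWith.extend_real`); in general use a smooth partition of unity, or cover the compact
support by finitely many balls. -/
def S_WG : Prop :=
  ∀ (n : ℕ) (Ω : Set (E n)) (C : ℝ≥0) (g : E n → ℝ), IsOpen Ω →
    (∀ x r, ball x r ⊆ Ω → LipschitzOnWith C g (ball x r)) →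
    ∃ G : E n → Fin n → ℝ, (∀ j, Measurable fun x => G x j) ∧ (∀ x j, |G x j| ≤ C) ∧
      ∀ j, ∀ φ : E n → ℝ, ContDiff ℝ ∞ φ → HasCompactSupport φ → tsupport φ ⊆ Ω →
        ∫ x in Ω, g x * fderiv ℝ φ x (ee j) = - ∫ x in Ω, G x j * φ x

/-- CPT (about 120 lines): compactness.  Diagonal subsequence converging on a countable dense
subset of `Ω`; by the local Lipschitz bound it is Cauchy at every point. -/
def S_CPT : Prop :=
  ∀ (n : ℕ) (Ω : Set (E n)) (C : ℝ≥0) (B : ℝ) (F : ℕ → E n → E n), IsOpen Ω →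
    (∀ k x r, ball x r ⊆ Ω → LipschitzOnWith C (F k) (ball x r)) →
    (∀ k, ∀ x ∈ Ω, ‖F k x‖ ≤ B) →
    ∃ (σ : ℕ → ℕ) (f : E n → E n), StrictMono σ ∧
      (∀ x ∈ Ω, Tendsto (fun k => F (σ k) x) atTop (𝓝 (f x))) ∧
      (∀ x r, ball x r ⊆ Ω → LipschitzOnWith C f (ball x r))

/-- WK (about 150 lines): weak convergence.  The functions: dominated convergence.  The
derivatives: for a test function `φ` supported in `Ω`,
`∫ G_k φ = -∫ g_k ∂_jφ → -∫ g ∂_jφ = ∫ G φ`; for `ψ ∈ L^1(Ω)` approximate in `L^1` by test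
functions supported in `Ω` (continuous compactly supported functions are dense in `L^1`, cut off
by compact subsets of `Ω`, mollify) and use the uniform bound `C`. -/
def S_WK : Prop :=
  ∀ (n : ℕ) (Ω : Set (E n)) (j : Fin n) (C : ℝ) (gk Gk : ℕ → E n → ℝ) (g G : E n → ℝ),
    IsOpen Ω → volume Ω < ⊤ → (∀ k, ContinuousOn (gk k) Ω) → ContinuousOn g Ω →
    (∀ k, Measurable (Gk k)) → Measurable G →
    (∀ k, ∀ x ∈ Ω, |gk k x| ≤ C) → (∀ k x, |Gk k x| ≤ C) → (∀ x, |G x| ≤ C) →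
    (∀ x ∈ Ω, Tendsto (fun k => gk k x) atTop (𝓝 (g x))) →
    (∀ k, ∀ φ : E n → ℝ, ContDiff ℝ ∞ φ → HasCompactSupport φ → tsupport φ ⊆ Ω →
      ∫ x in Ω, gk k x * fderiv ℝ φ x (ee j) = - ∫ x in Ω, Gk k x * φ x) →
    (∀ φ : E n → ℝ, ContDiff ℝ ∞ φ → HasCompactSupport φ → tsupport φ ⊆ Ω →
      ∫ x in Ω, g x * fderiv ℝ φ x (ee j) = - ∫ x in Ω, G x * φ x) →
    ∀ ψ : E n → ℝ, IntegrableOn ψ Ω →
      Tendsto (fun k => ∫ x in Ω, gk k x * ψ x) atTop (𝓝 (∫ x in Ω, g x * ψ x)) ∧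
      Tendsto (fun k => ∫ x in Ω, Gk k x * ψ x) atTop (𝓝 (∫ x in Ω, G x * ψ x))

/-- INW (about 200 lines; hypotheses `S_FK, S_IOD, S_WG, S_CPT, S_WK, S_TOP, S_GAMB`): the limit.
Take `F k` = the map of `S_FK` for `k+1`; `Om m` has finite volume; `S_CPT` gives a subsequence
and `f`; on `T0p m` the first three coordinates of `f` vanish and the others are `x i`;
`S_WG` componentwise gives the gradients, `S_WK` the weak convergence (`L^q(Ω) ⊂ L^1(Ω)`), and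
`f x ∈ closure (Om' m)`. -/
def S_INW : Prop :=
  ∀ m : ℕ, ∃ f : E (m + 3) → E (m + 3),
    (∀ x ∈ T0p m, f x 0 = 0 ∧ f x 1 = 0 ∧ f x 2 = 0 ∧
      ∀ i : Fin (m + 3), 3 ≤ (i : ℕ) → f x i = x i) ∧
    ∀ p : ℝ≥0∞, 1 ≤ p → p ≠ ⊤ → f ∈ weakClosure p (Om m) (Om' m)

/-- NST (about 200 lines; hypotheses `S_LEV, S_OSC, S_NRG, S_TOP`): not a strong limit.
If `f` (as below) is a strong limit of homeomorphisms `g_k` with gradients `G_k → G`: on the open
set `T0p m` the function `f_i` does not depend on the coordinates `0` and `2`, so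
`∫ G_{i0} φ = 0` for all test functions there and `G_{i0} = G_{i2} = 0` a.e. on `T0p m`
(`IsOpen.ae_eq_zero_of_integral_contDiff_smul_eq_zero`).  By Hölder
`∫_{T0p} |G_k,i0| ≤ ‖G_k,i0 - G_i0‖_p vol^{1-1/p} → 0`.  But `S_NRG` with `F = g_k`,
`W = lev ∘ pr ∘ g_k` (continuous and locally compared by `S_LEV`, `norm_pr_sub_le`) and `S_OSC`
give the lower bound `c > 0`, contradiction. -/
def S_NST : Prop :=
  ∀ (m : ℕ) (f : E (m + 3) → E (m + 3)),
    (∀ x ∈ T0p m, f x 0 = 0 ∧ f x 1 = 0 ∧ f x 2 = 0 ∧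
      ∀ i : Fin (m + 3), 3 ≤ (i : ℕ) → f x i = x i) →
    ∀ p : ℝ≥0∞, 1 ≤ p → p ≠ ⊤ → f ∉ strongClosure p (Om m) (Om' m)

/-- The final theorem (helper242 assembles it from S_INW, S_NST, S_TOP, S_FK, S_IOD). -/
def S_MAIN : Prop :=
  ∀ n : ℕ, 3 ≤ n → ∃ Ω Ω' : Set (E n), IsOpen Ω ∧ IsOpen Ω' ∧ IsConnected Ω ∧
    IsConnected Ω' ∧ Bornology.IsBounded Ω ∧ Bornology.IsBounded Ω' ∧
    ∃ f : E n → E n, ∀ p : ℝ≥0∞, 1 ≤ p → p ≠ ⊤ →
      f ∈ weakClosure p Ω Ω' ∧ f ∉ strongClosure p Ω Ω'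

end

end Run7.h242.SC
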