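import Pool.Agent.Run7.h242.SC.Iface

/-!
# Assembly of project SC
-/

set_option autoImplicit false

namespace Run7.h242.SC

open MeasureTheory Set Filter Topology Metric
open scoped ContDiff ENNReal NNReal

theorem t_MAIN (hINW : S_INW) (hNST : S_NST) (hTOP : S_TOP) (hFK : S_FK) (hIOD : S_IOD)
    (hGAMB : S_GAMB) : S_MAIN := by
  intro n hn
  obtain ⟨m, rfl⟩ : ∃ m, n = m + 3 := ⟨n - 3, by omega⟩
  obtain ⟨hO, hC, hB, hB'⟩ := hTOP m
  obtain ⟨C, hC1⟩ := hFK m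
  obtain ⟨f1, h1, h2, h3, -, -⟩ := hC1 1 le_rfl
  obtain ⟨hO', -, -⟩ := hIOD (m + 3) (Om m) f1 hO h1 h2
  rw [h3] at hO'
  have hC' : IsConnected (Om' m) := by
    rw [← h3]
    exact hC.image f1 h1
  obtain ⟨f, hf, hw⟩ := hINW m
  exact ⟨Om m, Om' m, hO, hO', hC, hC', hB, hB' hGAMB, f,
    fun p hp hp' => ⟨hw p hp hp', hNST m f hf p hp hp'⟩⟩

end Run7.h242.SC
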